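import Mathlib

set_option autoImplicit false

namespace Pool.Agent.Results.MP_850d3d_an.NotClosed

open Set Metric

/-- `g` is locally solvent of degree `m` at `a₀` (parameters from `A`). -/
def LocSolvent {Q B : Type} (A : Set B) (g : B → Q → ℝ) (m : ℕ) (a₀ : B) : Prop :=
  ∀ t : Fin m → Q, Function.Injective t → ∀ ε : ℝ, 0 < ε → ∃ δ : ℝ, 0 < δ ∧
    ∀ γ : Fin m → ℝ, (∀ i, |g a₀ (t i) - γ i| < δ) →
      ∃ a ∈ A, (∀ i, g a (t i) = γ i) ∧ ∀ q, |g a q - g a₀ q| < ε

/-- `g` is varisolvent on `Q` with degree function `p` (a non-constant function on `A` with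
values in `{1, …, |Q|}`). -/
structure Varisolvent {Q B : Type} [Fintype Q] [TopologicalSpace B]
    (A : Set B) (g : B → Q → ℝ) (p : B → ℕ) : Prop where
  cont : ∀ q, ContinuousOn (fun a => g a q) A
  nonconst : ∃ a ∈ A, ∃ b ∈ A, p a ≠ p b
  one_le : ∀ a ∈ A, 1 ≤ p a
  le_card : ∀ a ∈ A, p a ≤ Fintype.card Q
  solvent : ∀ a ∈ A, LocSolvent A g (p a) a
  zeros : ∀ a₀ ∈ A, ∀ a ∈ A, a ≠ a₀ → Set.ncard {q | g a₀ q - g a q = 0} ≤ p a₀ - 1

/-- The abstract core, in terms of the surface only. -/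
theorem core {Q : Type} [Fintype Q] [DecidableEq Q] (G : Set (Q → ℝ)) (d : (Q → ℝ) → ℕ)
    (hle : ∀ x ∈ G, d x ≤ Fintype.card Q)
    (hpos : ∀ x ∈ G, 1 ≤ d x)
    (hLS : ∀ x ∈ G, ∀ T : Finset Q, T.card = d x → ∀ ε : ℝ, 0 < ε → ∃ δ : ℝ, 0 < δ ∧
      ∀ γ : Q → ℝ, (∀ q ∈ T, |x q - γ q| < δ) →
        ∃ y ∈ G, (∀ q ∈ T, y q = γ q) ∧ ∀ q, |y q - x q| < ε)
    (hZ : ∀ x ∈ G, ∀ y ∈ G, ∀ S : Finset Q, (∀ q ∈ S, x q = y q) → d x ≤ S.card → y = x)
    (hnc : ∃ x ∈ G, ∃ y ∈ G, d x ≠ d y)
    (hconn : IsPreconnected G) (hcl : IsClosed G) : False := by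
  classical
  obtain ⟨x₀, hx₀, y₀, hy₀, hxy⟩ := hnc
  -- the maximal degree
  obtain ⟨M, ⟨xM, hxM, hdM⟩, hmax⟩ : ∃ M, (∃ x ∈ G, d x = M) ∧ ∀ x ∈ G, d x ≤ M := by
    have hfin : (d '' G).Finite := by
      apply (Set.finite_Iic (Fintype.card Q)).subset
      rintro _ ⟨x, hx, rfl⟩
      exact hle x hx
    have hne : (d '' G).Nonempty := ⟨_, x₀, hx₀, rfl⟩
    obtain ⟨M, hM, hM'⟩ := hfin.exists_maximal hne
    obtain ⟨x, hx, rfl⟩ := hM
    refine ⟨d x, ⟨x, hx, rfl⟩, fun y hy => ?_⟩
    by_contra hcon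
    push Not at hcon
    exact absurd (hM' ⟨y, hy, rfl⟩ hcon.le) (not_le.2 hcon)
  have hM1 : 1 ≤ M := hdM ▸ hpos xM hxM
  have hMcard : M ≤ Fintype.card Q := hdM ▸ hle xM hxM
  obtain ⟨T, -, hT⟩ := Finset.exists_subset_card_eq (s := (Finset.univ : Finset Q)) (n := M)
    (by rw [Finset.card_univ]; exact hMcard)
  have hTne : T.Nonempty := Finset.card_pos.1 (by omega)
  -- a lower-degree point is determined by any M-1 coordinates
  have key : ∀ x ∈ G, d x < M → ∀ y ∈ G, ∀ t, (∀ q ∈ T.erase t, x q = y q) → y = x := by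
    intro x hx hdx y hy t hagree
    refine hZ x hx y hy (T.erase t) hagree ?_
    have := Finset.pred_card_le_card_erase (s := T) (a := t)
    omega
  -- Step 1
  have step1 : ∀ x ∈ G, d x = M → ∃ δ : ℝ, 0 < δ ∧ ∀ y ∈ G, (∀ q, |y q - x q| < δ) → d y = M := by
    intro x hx hdx
    obtain ⟨δ, hδ, hL⟩ := hLS x hx T (by rw [hT, hdx]) 1 one_pos
    refine ⟨δ / 2, by linarith, fun y hy hyx => ?_⟩
    by_contra hne
    have hlt : d y < M := lt_of_le_of_ne (hmax y hy) hne
    obtain ⟨t, ht⟩ := hTne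
    obtain ⟨z, hz, hzT, -⟩ := hL (Function.update y t (y t + δ / 2)) (by
      intro q hq
      by_cases hqt : q = t
      · subst hqt
        rw [Function.update_self]
        have h1 := hyx q
        rw [abs_lt] at h1 ⊢
        constructor <;> linarith [h1.1, h1.2]
      · rw [Function.update_of_ne hqt]
        have h1 := hyx q
        rw [abs_lt] at h1 ⊢
        constructor <;> linarith [h1.1, h1.2])
    have hzy : z = y := by
      refine key y hy hlt z hz t ?_
      intro q hq
      rw [Finset.mem_erase] at hq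
      rw [hzT q hq.2, Function.update_of_ne hq.1]
    have := hzT t ht
    rw [hzy, Function.update_self] at this
    linarith
  -- Step 2
  obtain ⟨h, hh, hdh, hcl'⟩ : ∃ h ∈ G, d h < M ∧ h ∈ closure {x | x ∈ G ∧ d x = M} := by
    by_contra hcon
    push Not at hcon
    choose! δ hδ hδ' using step1
    have hu : IsOpen (⋃ x ∈ {x | x ∈ G ∧ d x = M}, ball x (δ x)) :=
      isOpen_biUnion fun x _ => isOpen_ball
    have hv : IsOpen (closure {x | x ∈ G ∧ d x = M})ᶜ := isClosed_closure.isOpen_compl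
    have hcov : G ⊆ (⋃ x ∈ {x | x ∈ G ∧ d x = M}, ball x (δ x)) ∪
        (closure {x | x ∈ G ∧ d x = M})ᶜ := by
      intro x hx
      by_cases hd : d x = M
      · left
        simp only [mem_iUnion]
        exact ⟨x, ⟨hx, hd⟩, mem_ball_self (hδ x hx hd)⟩
      · right
        exact hcon x hx (lt_of_le_of_ne (hmax x hx) hd)
    obtain ⟨yl, hyl, hdyl⟩ : ∃ y ∈ G, d y < M := by
      by_cases h1 : d x₀ = M
      · exact ⟨y₀, hy₀, lt_of_le_of_ne (hmax _ hy₀) (fun h => hxy (h1.trans h.symm))⟩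
      · exact ⟨x₀, hx₀, lt_of_le_of_ne (hmax _ hx₀) h1⟩
    obtain ⟨z, hz, hzu, hzv⟩ := hconn _ _ hu hv hcov
      ⟨xM, hxM, by simp only [mem_iUnion]; exact ⟨xM, ⟨hxM, hdM⟩, mem_ball_self (hδ xM hxM hdM)⟩⟩
      ⟨yl, hyl, hcon yl hyl hdyl⟩
    simp only [mem_iUnion] at hzu
    obtain ⟨x, ⟨hx, hdx⟩, hzx⟩ := hzu
    have hdz : d z = M := by
      refine hδ' x hx hdx z hz fun q => ?_
      have h1 := (dist_pi_lt_iff (hδ x hx hdx)).1 (mem_ball.1 hzx) q
      rwa [Real.dist_eq] at h1
    exact hzv (subset_closure ⟨hz, hdz⟩)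
  -- Step 3: the constant η
  obtain ⟨η, hη, hηS⟩ : ∃ η : ℝ, 0 < η ∧ ∀ g ∈ G, (∀ q ∈ T, |g q - h q| < η) →
      dist g h ≤ 1 → dist g h < 1 := by
    have hK : IsCompact (G ∩ sphere h 1) :=
      (isCompact_sphere h 1).inter_left hcl
    set φ : (Q → ℝ) → ℝ := fun g => ∑ q ∈ T, |g q - h q| with hφ
    have hφc : Continuous φ := by
      rw [hφ]
      exact continuous_finsetSum _ fun q _ => ((continuous_apply q).sub continuous_const).abs
    rcases (G ∩ sphere h 1).eq_empty_or_nonempty with hemp | hne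
    · refine ⟨1, one_pos, fun g hg _ hd => lt_of_le_of_ne hd fun heq => ?_⟩
      have : g ∈ G ∩ sphere h 1 := ⟨hg, heq⟩
      rw [hemp] at this
      exact this
    · obtain ⟨g₁, hg₁, hmin⟩ := hK.exists_isMinOn hne hφc.continuousOn
      have hpos1 : 0 < φ g₁ := by
        have hnn : 0 ≤ φ g₁ := Finset.sum_nonneg fun q _ => abs_nonneg _
        rcases hnn.lt_or_eq with h1 | h1
        · exact h1
        · exfalso
          have h2 : ∀ q ∈ T, |g₁ q - h q| = 0 :=
            (Finset.sum_eq_zero_iff_of_nonneg (fun q _ => abs_nonneg _)).1 h1.symm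
          have h3 : g₁ = h := by
            refine hZ h hh g₁ hg₁.1 T (fun q hq => ?_) (by omega)
            have := h2 q hq
            rw [abs_eq_zero] at this
            linarith
          have h4 := hg₁.2
          rw [h3, mem_sphere, dist_self] at h4
          norm_num at h4
      refine ⟨φ g₁ / (T.card + 1), by positivity, fun g hg hclose hd =>
        lt_of_le_of_ne hd fun heq => ?_⟩
      have h5 : φ g₁ ≤ φ g := hmin ⟨hg, heq⟩
      have h6 : φ g ≤ ∑ q ∈ T, φ g₁ / (T.card + 1) :=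
        Finset.sum_le_sum fun q hq => (hclose q hq).le
      rw [Finset.sum_const, nsmul_eq_mul] at h6
      have h7 : (T.card : ℝ) * (φ g₁ / (T.card + 1)) < φ g₁ := by
        rw [mul_div_assoc', div_lt_iff₀ (by positivity)]
        nlinarith
      linarith
  -- the set O
  set O : Set (Q → ℝ) := {β | ∃ g ∈ G, d g = M ∧ dist g h < 1 ∧ ∀ q ∈ T, g q = β q} with hO
  -- Claim B
  have claimB : ∀ β : Q → ℝ, (∀ q ∈ T, |β q - h q| < η) → β ∈ O → ∀ t ∈ T, ∀ c : ℝ,
      |c - h t| < η → Function.update β t c ∈ O := by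
    intro β hβ hβO t ht c hc
    set I : Set ℝ := Ioo (h t - η) (h t + η) with hI
    set J : Set ℝ := {s | Function.update β t s ∈ O} with hJ
    have hβt : β t ∈ J := by
      rw [hJ, mem_ofPred_eq, Function.update_eq_self]
      exact hβO
    -- openness
    have hJo : IsOpen J := by
      rw [Metric.isOpen_iff]
      rintro s ⟨g, hg, hdg, hgh, hgT⟩
      obtain ⟨δ₁, hδ₁, hδ₁'⟩ := step1 g hg hdg
      obtain ⟨δ₂, hδ₂, hδ₂'⟩ := hLS g hg T (by rw [hT, hdg]) (min δ₁ (1 - dist g h))
        (lt_min hδ₁ (by linarith))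
      refine ⟨δ₂, hδ₂, fun s' hs' => ?_⟩
      obtain ⟨y, hy, hyT, hyg⟩ := hδ₂' (Function.update β t s') (by
        intro q hq
        rw [hgT q hq]
        by_cases hqt : q = t
        · subst hqt
          rw [Function.update_self, Function.update_self]
          rw [mem_ball, Real.dist_eq, abs_sub_comm] at hs'
          exact hs'
        · rw [Function.update_of_ne hqt, Function.update_of_ne hqt, sub_self, abs_zero]
          exact hδ₂)
      refine ⟨y, hy, hδ₁' y hy fun q => lt_of_lt_of_le (hyg q) (min_le_left _ _), ?_, hyT⟩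
      have h1 : dist y g < 1 - dist g h := by
        rw [dist_pi_lt_iff (by linarith)]
        intro q
        rw [Real.dist_eq]
        exact lt_of_lt_of_le (hyg q) (min_le_right _ _)
      have h2 := dist_triangle y g h
      linarith
    -- a closed set
    set C : Set ℝ := {s | ∃ g ∈ G ∩ closedBall h 1, ∀ q ∈ T, g q = Function.update β t s q} with hC
    have hCc : IsClosed C := by
      have hK : IsCompact (G ∩ closedBall h 1) := (isCompact_closedBall h 1).inter_left hcl
      have hr : Continuous (fun g : Q → ℝ => fun q : T => g q) :=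
        continuous_pi fun q => continuous_apply (q : Q)
      have hK' : IsClosed ((fun g : Q → ℝ => fun q : T => g q) '' (G ∩ closedBall h 1)) :=
        (hK.image hr).isClosed
      have hup : Continuous (fun s : ℝ => fun q : T => Function.update β t s q) := by
        refine continuous_pi fun q => ?_
        by_cases hqt : (q : Q) = t
        · simp only [hqt, Function.update_self]
          exact continuous_id
        · simp only [Function.update_of_ne hqt]
          exact continuous_const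
      have : C = (fun s : ℝ => fun q : T => Function.update β t s q) ⁻¹'
          ((fun g : Q → ℝ => fun q : T => g q) '' (G ∩ closedBall h 1)) := by
        ext s
        simp only [hC, mem_ofPred_eq, mem_preimage, mem_image]
        constructor
        · rintro ⟨g, hg, hgT⟩
          exact ⟨g, hg, funext fun q => hgT q q.2⟩
        · rintro ⟨g, hg, hgT⟩
          exact ⟨g, hg, fun q hq => congrFun hgT ⟨q, hq⟩⟩
      rw [this]
      exact hK'.preimage hup
    have hJC : J ⊆ C := by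
      rintro s ⟨g, hg, -, hgh, hgT⟩
      exact ⟨g, ⟨hg, hgh.le⟩, hgT⟩
    have hCJ : C ∩ I ⊆ J := by
      rintro s ⟨⟨g, ⟨hg, hgb⟩, hgT⟩, hs⟩
      obtain ⟨g₀, hg₀, hdg₀, -, hg₀T⟩ := hβO
      have hlt : dist g h < 1 := by
        refine hηS g hg (fun q hq => ?_) hgb
        rw [hgT q hq]
        by_cases hqt : q = t
        · subst hqt
          rw [Function.update_self, abs_lt]
          constructor <;> linarith [hs.1, hs.2]
        · rw [Function.update_of_ne hqt]
          exact hβ q hq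
      refine ⟨g, hg, ?_, hlt, hgT⟩
      by_contra hne
      have hltM : d g < M := lt_of_le_of_ne (hmax g hg) hne
      have h1 : g₀ = g := by
        refine key g hg hltM g₀ hg₀ t fun q hq => ?_
        rw [Finset.mem_erase] at hq
        rw [hgT q hq.2, hg₀T q hq.2, Function.update_of_ne hq.1]
      rw [h1] at hdg₀
      exact hne hdg₀
    have hIpc : IsPreconnected I := isPreconnected_Ioo
    have hcI : c ∈ I := by
      rw [abs_lt] at hc
      exact ⟨by linarith [hc.1], by linarith [hc.2]⟩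
    have hβI : β t ∈ I := by
      have := hβ t ht
      rw [abs_lt] at this
      exact ⟨by linarith [this.1], by linarith [this.2]⟩
    by_contra hcJ
    have hcC : c ∉ C := fun h1 => hcJ (hCJ ⟨h1, hcI⟩)
    obtain ⟨s, hsI, hsJ, hsC⟩ := hIpc J Cᶜ hJo hCc.isOpen_compl (by
      intro s hs
      by_cases h1 : s ∈ C
      · left; exact hCJ ⟨h1, hs⟩
      · right; exact h1) ⟨β t, hβI, hβt⟩ ⟨c, hcI, hcC⟩
    exact hsC (hJC hsJ)
  -- Claim A
  obtain ⟨g₁, ⟨hg₁, hdg₁⟩, hg₁h⟩ := Metric.mem_closure_iff.1 hcl' (min η 1) (lt_min hη one_pos)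
  rw [dist_comm] at hg₁h
  have hg₁q : ∀ q, |g₁ q - h q| < η := by
    intro q
    have h1 := (dist_pi_lt_iff (lt_min hη one_pos)).1 hg₁h q
    rw [Real.dist_eq] at h1
    exact lt_of_lt_of_le h1 (min_le_left _ _)
  -- Claim C
  have claimC : ∀ S : Finset Q, S ⊆ T → (S.piecewise h g₁) ∈ O := by
    intro S
    induction S using Finset.induction_on with
    | empty =>
      intro _
      rw [Finset.piecewise_empty]
      exact ⟨g₁, hg₁, hdg₁, lt_of_lt_of_le hg₁h (min_le_right _ _), fun _ _ => rfl⟩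
    | insert t S htS ih =>
      intro hsub
      have h1 := ih ((Finset.subset_insert t S).trans hsub)
      rw [Finset.piecewise_insert]
      refine claimB _ ?_ h1 t (hsub (Finset.mem_insert_self t S)) (h t) ?_
      · intro q _
        by_cases hq : q ∈ S
        · rw [Finset.piecewise_eq_of_mem _ _ _ hq, sub_self, abs_zero]
          exact hη
        · rw [Finset.piecewise_eq_of_notMem _ _ _ hq]
          exact hg₁q q
      · rw [sub_self, abs_zero]; exact hη
  obtain ⟨g, hg, hdg, -, hgT⟩ := claimC T subset_rfl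
  have hgh : h = g := by
    refine hZ g hg h hh T (fun q hq => ?_) (by omega)
    rw [hgT q hq, Finset.piecewise_eq_of_mem _ _ _ hq]
  rw [← hgh] at hdg
  omega

/-- Q1 (Rice), proved: if `g` is varisolvent on the finite set `Q` and the surface
`G = {g(α, ·) : α ∈ A}` is connected, then `G` is not closed in `ℝ^Q`. -/
theorem result : ∀ (Q : Type) [Fintype Q] (B : Type) [NormedAddCommGroup B] [NormedSpace ℝ B]
    [FiniteDimensional ℝ B] (A : Set B) (g : B → Q → ℝ) (p : B → ℕ),
    Varisolvent A g p → IsConnected {x : Q → ℝ | ∃ a ∈ A, g a = x} →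
      ¬ IsClosed {x : Q → ℝ | ∃ a ∈ A, g a = x} := by
  intro Q _ B _ _ _ A g p hv hconn hcl
  classical
  have hinj : ∀ a ∈ A, ∀ b ∈ A, g a = g b → a = b := by
    intro a ha b hb hab
    by_contra hne
    have h1 := hv.zeros a ha b hb (Ne.symm hne)
    have h2 : {q | g a q - g b q = 0} = univ := by
      ext q; simp [hab]
    rw [h2, Set.ncard_univ, Nat.card_eq_fintype_card] at h1
    have h3 := hv.le_card a ha
    have h4 := hv.one_le a ha
    omega
  set G : Set (Q → ℝ) := {x | ∃ a ∈ A, g a = x} with hG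
  have hch : ∀ x : Q → ℝ, ∃ n : ℕ, ∀ a ∈ A, g a = x → p a = n := by
    intro x
    by_cases hx : x ∈ G
    · obtain ⟨a, ha, rfl⟩ := hx
      exact ⟨p a, fun b hb hba => by rw [hinj b hb a ha hba]⟩
    · exact ⟨0, fun a ha hax => absurd ⟨a, ha, hax⟩ hx⟩
  choose d hd using hch
  have hda : ∀ a ∈ A, d (g a) = p a := fun a ha => (hd (g a) a ha rfl).symm
  refine core G d ?_ ?_ ?_ ?_ ?_ hconn.isPreconnected hcl
  · rintro _ ⟨a, ha, rfl⟩
    rw [hda a ha]; exact hv.le_card a ha
  · rintro _ ⟨a, ha, rfl⟩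
    rw [hda a ha]; exact hv.one_le a ha
  · rintro _ ⟨a, ha, rfl⟩ T hT ε hε
    rw [hda a ha] at hT
    obtain ⟨δ, hδ, hL⟩ := hv.solvent a ha (fun i => ((T.equivFinOfCardEq hT).symm i : Q))
      (fun i j hij => (T.equivFinOfCardEq hT).symm.injective (Subtype.ext hij)) ε hε
    refine ⟨δ, hδ, fun γ hγ => ?_⟩
    obtain ⟨b, hb, hbT, hbε⟩ := hL (fun i => γ ((T.equivFinOfCardEq hT).symm i : Q))
      (fun i => hγ _ ((T.equivFinOfCardEq hT).symm i).2)
    refine ⟨g b, ⟨b, hb, rfl⟩, fun q hq => ?_, hbε⟩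
    have := hbT (T.equivFinOfCardEq hT ⟨q, hq⟩)
    simpa using this
  · rintro _ ⟨a, ha, rfl⟩ _ ⟨b, hb, rfl⟩ S hS hcard
    rw [hda a ha] at hcard
    by_cases hab : b = a
    · rw [hab]
    exfalso
    have h1 := hv.zeros a ha b hb hab
    have h2 : S.card ≤ Set.ncard {q | g a q - g b q = 0} := by
      rw [← Set.ncard_coe_finset]
      refine Set.ncard_le_ncard (fun q hq => ?_) (Set.toFinite _)
      have := hS q (Finset.mem_coe.1 hq)
      simp [this]
    have h4 := hv.one_le a ha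
    omega
  · obtain ⟨a, ha, b, hb, hab⟩ := hv.nonconst
    exact ⟨g a, ⟨a, ha, rfl⟩, g b, ⟨b, hb, rfl⟩, by rw [hda a ha, hda b hb]; exact hab⟩

end Pool.Agent.Results.MP_850d3d_an.NotClosed
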